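import Pool.Agent.BLL.LitLow
import Pool.Agent.BLL.Final

/-!
# The family `n, 2n, 3n, 4n, n+2n²-2n³, n-2n²-2n³, -2n³`: Weyl degree `3`, degree at least `4`

Definitions: `Pool/Agent/BLL/Stmts.lean` (the family `P`) and `Pool/Agent/BLL/LitDefs.lean`.
-/

set_option autoImplicit false
open MeasureTheory Filter Topology Polynomial

namespace Pool.Agent.Results.MP_379c13_an.ExactDegrees

open Pool.Agent.BLL Pool.Agent.BLL.Lit

/-- The family `P = {n, 2n, 3n, 4n, n+2n²-2n³, n-2n²-2n³, -2n³}` is essentially distinct (1), (2);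
`d^W_min(P) = 3` (3) and `d_min(P) ≥ 4` (4), where characteristic factors are expressed by the seminorms;
this agrees with the literal meaning (5): for every family `Q`, every system and every σ-algebra
`Z` that is the Host–Kra factor of order `d`, the difference of the averages of the `f_i` and of
the `E(f_i | Z)` tends to `0` in `L²` for all `f_i` iff the averages tend to `0` whenever the
seminorm of order `d+1` of one `f_i` is `0`. -/
theorem result :
    (∀ i, 0 < (P i).natDegree) ∧ (∀ i j, i ≠ j → 0 < (P i - P j).natDegree) ∧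
    IsLeast {d : ℕ | InWeylSystems P d} 3 ∧
    (∀ d : ℕ, InAllSystems P d → 4 ≤ d) ∧
    (∀ (X : Type) [MeasurableSpace X] (μ : Measure X) [IsProbabilityMeasure μ] (T : X ≃ᵐ X),
      MeasurePreserving T μ μ → ∀ (l : ℕ) (Q : Fin l → ℤ[X]) (d : ℕ) (Z : SigmaAlg X),
      IsHostKra μ T d Z → (Characteristic μ T Q Z ↔ SeminormCharacteristic μ T Q d)) := by
  have hW : InWeylSystems P 3 := fun m A b T hA hT f hf hi =>
    wpart m A b T hA hT f (fun i => (hf i).1) (fun i => (hf i).2) hi
  refine ⟨deg1, deg2, ⟨hW, fun d hd => ?_⟩, fun d hd => ?_, ?_⟩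
  · by_contra h
    exact not_low d (not_le.1 h) hd
  · by_contra h
    have h3 : d ≤ 3 := by omega
    rcases h3.lt_or_eq with h4 | h4
    · refine not_low d h4 fun m A b T hA hT => ?_
      exact hd _ volume T (torus_mp m A b T hT)
    · subst h4
      obtain ⟨X, i1, i2, μ, i3, T, hT, f, hf, hb, hbox, hno⟩ := npart
      exact hno (hd X μ T hT f (fun i => ⟨hf i, hb i⟩) hbox)
  · intro X _ μ _ T hT l Q d Z hZ
    exact characteristic_iff Z μ T hT Q d hZ

end Pool.Agent.Results.MP_379c13_an.ExactDegrees
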